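import Pool.Agent.Q61.DP.Stm

/-!
# Job DP-6 (helper199): the developing pair from a representation of `v`
-/

namespace Pool.Agent.Q199.DP.D4

open Pool.Agent.Q61.DP
open scoped Topology ContDiff ComplexConjugate

/-- An entire function vanishing on the real axis vanishes. -/
lemma zero_of_real (f : ℂ → ℂ) (hf : Differentiable ℂ f) (h : ∀ x : ℝ, f x = 0) (z : ℂ) :
    f z = 0 := by
  have hA : AnalyticOnNhd ℂ f Set.univ := fun x _ => hf.analyticAt x
  have hfr : ∃ᶠ x in 𝓝[≠] (0:ℂ), f x = 0 := by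
    have h1 : Filter.Tendsto (fun x : ℝ => (x : ℂ)) (𝓝[≠] (0:ℝ)) (𝓝[≠] (0:ℂ)) := by
      refine tendsto_nhdsWithin_of_tendsto_nhds_of_eventually_within _ ?_ ?_
      · have := (Complex.continuous_ofReal.tendsto (0:ℝ)).mono_left
          (nhdsWithin_le_nhds (s := {0}ᶜ))
        simpa using this
      · filter_upwards [self_mem_nhdsWithin] with x hx
        simpa using hx
    exact h1.frequently (Filter.Frequently.of_forall fun x => h x)
  have := hA.eqOn_zero_of_preconnected_of_frequently_eq_zero isPreconnected_univ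
    (Set.mem_univ (0:ℂ)) hfr
  exact this (Set.mem_univ z)

/-- Polarisation. -/
lemma polar (E₁ E₂ y₁ y₂ : ℂ → ℂ) (hE₁ : Differentiable ℂ E₁) (hE₂ : Differentiable ℂ E₂)
    (hy₁ : Differentiable ℂ y₁) (hy₂ : Differentiable ℂ y₂)
    (h : ∀ z, E₁ z * conj (y₁ z) + E₂ z * conj (y₂ z) - y₁ z * conj (E₁ z)
      - y₂ z * conj (E₂ z) = 0) (z w : ℂ) :
    E₁ z * conj (y₁ w) + E₂ z * conj (y₂ w) - y₁ z * conj (E₁ w)
      - y₂ z * conj (E₂ w) = 0 := by
  have hc : ∀ f : ℂ → ℂ, Differentiable ℂ f → Differentiable ℂ (fun w => conj (f (conj w))) := by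
    intro f hf x
    have := (hf (conj x)).conj_conj
    rw [Complex.conj_conj] at this
    exact this
  -- the two variable function
  set Φ : ℂ → ℂ → ℂ := fun z w => E₁ z * conj (y₁ (conj w)) + E₂ z * conj (y₂ (conj w))
    - y₁ z * conj (E₁ (conj w)) - y₂ z * conj (E₂ (conj w)) with hΦ
  have e1 := hc _ hE₁
  have e2 := hc _ hE₂
  have e3 := hc _ hy₁
  have e4 := hc _ hy₂
  have hd : ∀ (p q : ℂ → ℂ), Differentiable ℂ p → Differentiable ℂ q →
      Differentiable ℂ (fun s => Φ (p s) (q s)) := by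
    intro p q hp hq
    have a1 := (hE₁.comp hp).mul (e3.comp hq)
    have a2 := (hE₂.comp hp).mul (e4.comp hq)
    have a3 := (hy₁.comp hp).mul (e1.comp hq)
    have a4 := (hy₂.comp hp).mul (e2.comp hq)
    exact ((a1.add a2).sub a3).sub a4
  have h1 : ∀ s t : ℝ, Φ (s + Complex.I * t) (s - Complex.I * t) = 0 := by
    intro s t
    have : conj ((s:ℂ) - Complex.I * t) = s + Complex.I * t := by
      simp
    simp only [hΦ, this]
    exact h _
  have h2 : ∀ (t : ℝ) (s : ℂ), Φ (s + Complex.I * t) (s - Complex.I * t) = 0 := by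
    intro t s
    refine zero_of_real (fun s => Φ (s + Complex.I * t) (s - Complex.I * t)) ?_ (fun x => h1 x t) s
    exact hd (fun s => s + Complex.I * t) (fun s => s - Complex.I * t) (by fun_prop) (by fun_prop)
  have h3 : ∀ (t s : ℂ), Φ (s + Complex.I * t) (s - Complex.I * t) = 0 := by
    intro t s
    refine zero_of_real (fun t => Φ (s + Complex.I * t) (s - Complex.I * t)) ?_ (fun x => h2 x s) t
    exact hd (fun t => s + Complex.I * t) (fun t => s - Complex.I * t) (by fun_prop) (by fun_prop)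
  have h4 := h3 ((z - conj w) / (2 * Complex.I)) ((z + conj w) / 2)
  have e5 : (z + conj w) / 2 + Complex.I * ((z - conj w) / (2 * Complex.I)) = z := by
    field_simp
    ring
  have e6 : (z + conj w) / 2 - Complex.I * ((z - conj w) / (2 * Complex.I)) = conj w := by
    field_simp
    ring
  rw [e5, e6] at h4
  simpa [hΦ] using h4

/-- The `E`s are combinations of the `y`s. -/
lemma comb (E₁ E₂ y₁ y₂ : ℂ → ℂ) (hE₁ : Differentiable ℂ E₁) (hE₂ : Differentiable ℂ E₂)
    (hy₁ : Differentiable ℂ y₁) (hy₂ : Differentiable ℂ y₂)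
    (hW : ∀ z, y₁ z * deriv y₂ z - deriv y₁ z * y₂ z = 1)
    (h : ∀ z, E₁ z * conj (y₁ z) + E₂ z * conj (y₂ z) - y₁ z * conj (E₁ z)
      - y₂ z * conj (E₂ z) = 0) :
    ∃ α β γ δ : ℂ, (∀ z, E₁ z = α * y₁ z + β * y₂ z) ∧ (∀ z, E₂ z = γ * y₁ z + δ * y₂ z) := by
  have hP := polar E₁ E₂ y₁ y₂ hE₁ hE₂ hy₁ hy₂ h
  obtain ⟨w, hw⟩ : ∃ w, y₁ 0 * y₂ w - y₁ w * y₂ 0 ≠ 0 := by
    by_contra hcon
    push Not at hcon
    have h1 : HasDerivAt (fun w => y₁ 0 * y₂ w - y₁ w * y₂ 0)
        (y₁ 0 * deriv y₂ 0 - deriv y₁ 0 * y₂ 0) 0 :=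
      ((hy₂ 0).hasDerivAt.const_mul _).sub ((hy₁ 0).hasDerivAt.mul_const _)
    have h2 : (fun w => y₁ 0 * y₂ w - y₁ w * y₂ 0) = fun _ => (0:ℂ) := funext hcon
    rw [h2] at h1
    have h3 := h1.unique (hasDerivAt_const (0:ℂ) (0:ℂ))
    rw [hW 0] at h3
    exact one_ne_zero h3
  set D : ℂ := conj (y₁ 0 * y₂ w - y₁ w * y₂ 0) with hD
  have hD0 : D ≠ 0 := by
    rw [hD]
    intro h0
    exact hw (by simpa using congrArg conj h0)
  have hDe : D = conj (y₁ 0) * conj (y₂ w) - conj (y₁ w) * conj (y₂ 0) := by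
    simp [hD]
  refine ⟨(conj (y₂ w) * conj (E₁ 0) - conj (y₂ 0) * conj (E₁ w)) / D,
    (conj (y₂ w) * conj (E₂ 0) - conj (y₂ 0) * conj (E₂ w)) / D,
    (conj (y₁ 0) * conj (E₁ w) - conj (y₁ w) * conj (E₁ 0)) / D,
    (conj (y₁ 0) * conj (E₂ w) - conj (y₁ w) * conj (E₂ 0)) / D, fun z => ?_, fun z => ?_⟩
  · field_simp
    rw [hDe]
    linear_combination conj (y₂ w) * hP z 0 - conj (y₂ 0) * hP z w
  · field_simp
    rw [hDe]
    linear_combination conj (y₁ 0) * hP z w - conj (y₁ w) * hP z 0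

/-- Derivative of `Re (f conj g)`. -/
lemma hasF (f g : ℂ → ℂ) (hf : Differentiable ℂ f) (hg : Differentiable ℂ g) (z : ℂ) :
    ∃ L : ℂ →L[ℝ] ℝ, HasFDerivAt (fun z => (f z * conj (g z)).re) L z ∧
      ∀ p, L p = (deriv f z * p * conj (g z) + f z * conj (deriv g z * p)).re := by
  have h1 : HasFDerivAt f _ z := ((hf z).hasDerivAt.hasFDerivAt.restrictScalars ℝ)
  have h2 : HasFDerivAt g _ z := ((hg z).hasDerivAt.hasFDerivAt.restrictScalars ℝ)
  have h3 := (Complex.conjCLE.toContinuousLinearMap.hasFDerivAt (x := g z)).comp z h2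
  have h4 := h1.mul h3
  have h5 := (Complex.reCLM.hasFDerivAt (x := f z * conj (g z))).comp z h4
  refine ⟨_, h5, fun p => ?_⟩
  simp
  ring

/-- The Laplacian expression of a sum of three terms `Re (f conj g)` at a point. -/
lemma three (v : ℂ → ℝ) (hv : ContDiff ℝ 2 v) (f₁ g₁ f₂ g₂ f₃ g₃ : ℂ → ℂ)
    (hf₁ : Differentiable ℂ f₁) (hg₁ : Differentiable ℂ g₁)
    (hf₂ : Differentiable ℂ f₂) (hg₂ : Differentiable ℂ g₂)
    (hf₃ : Differentiable ℂ f₃) (hg₃ : Differentiable ℂ g₃)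
    (h : ∀ z, v z = (f₁ z * conj (g₁ z)).re + (f₂ z * conj (g₂ z)).re
      + (f₃ z * conj (g₃ z)).re) (z : ℂ) :
    (∀ p, fderiv ℝ v z p = (deriv f₁ z * p * conj (g₁ z) + f₁ z * conj (deriv g₁ z * p)).re
      + (deriv f₂ z * p * conj (g₂ z) + f₂ z * conj (deriv g₂ z * p)).re
      + (deriv f₃ z * p * conj (g₃ z) + f₃ z * conj (deriv g₃ z * p)).re) ∧
    D2 v z 1 1 + D2 v z Complex.I Complex.I = 4 * ((deriv f₁ z * conj (deriv g₁ z)).re
      + (deriv f₂ z * conj (deriv g₂ z)).re + (deriv f₃ z * conj (deriv g₃ z)).re) := by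
  have hfun : v = fun z => (f₁ z * conj (g₁ z)).re + (f₂ z * conj (g₂ z)).re
      + (f₃ z * conj (g₃ z)).re := funext h
  have hfd : ∀ z p, fderiv ℝ v z p =
      (deriv f₁ z * p * conj (g₁ z) + f₁ z * conj (deriv g₁ z * p)).re
      + (deriv f₂ z * p * conj (g₂ z) + f₂ z * conj (deriv g₂ z * p)).re
      + (deriv f₃ z * p * conj (g₃ z) + f₃ z * conj (deriv g₃ z * p)).re := by
    intro z p
    obtain ⟨L₁, h1, h1'⟩ := hasF f₁ g₁ hf₁ hg₁ z
    obtain ⟨L₂, h2, h2'⟩ := hasF f₂ g₂ hf₂ hg₂ z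
    obtain ⟨L₃, h3, h3'⟩ := hasF f₃ g₃ hf₃ hg₃ z
    have h4 := (h1.add h2).add h3
    have h5 : HasFDerivAt v (L₁ + L₂ + L₃) z := by
      rw [hfun]; exact h4
    rw [h5.fderiv, ← h1' p, ← h2' p, ← h3' p]
    rfl
  refine ⟨hfd z, ?_⟩
  have hC1 : ContDiff ℝ 1 (fderiv ℝ v) := hv.fderiv_right (by norm_num)
  have hdd : DifferentiableAt ℝ (fderiv ℝ v) z := hC1.differentiable (by norm_num) z
  have hD2 : ∀ p q, D2 v z p q = fderiv ℝ (fun x => fderiv ℝ v x q) z p := by
    intro p q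
    have : fderiv ℝ (fun x => fderiv ℝ v x q) z = (fderiv ℝ (fderiv ℝ v) z).flip q := by
      rw [fderiv_clm_apply hdd (differentiableAt_const q)]
      ext x
      simp
    rw [this]
    rfl
  have hder : ∀ f : ℂ → ℂ, Differentiable ℂ f → Differentiable ℂ (deriv f) := by
    intro f hf
    have : ContDiff ℂ 2 f := hf.contDiff
    exact ((contDiff_succ_iff_deriv (n := 1)).1 this).2.2.differentiable (by norm_num)
  have key : ∀ q : ℂ, D2 v z q q =
      ((deriv (deriv f₁) z * q * q * conj (g₁ z)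
        + 2 * (deriv f₁ z * q * conj (deriv g₁ z * q))
        + f₁ z * conj (deriv (deriv g₁) z * q * q)).re)
      + ((deriv (deriv f₂) z * q * q * conj (g₂ z)
        + 2 * (deriv f₂ z * q * conj (deriv g₂ z * q))
        + f₂ z * conj (deriv (deriv g₂) z * q * q)).re)
      + ((deriv (deriv f₃) z * q * q * conj (g₃ z)
        + 2 * (deriv f₃ z * q * conj (deriv g₃ z * q))
        + f₃ z * conj (deriv (deriv g₃) z * q * q)).re) := by
    intro q
    rw [hD2 q q]
    have hone : ∀ f g : ℂ → ℂ, Differentiable ℂ f → Differentiable ℂ g →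
        ∃ L : ℂ →L[ℝ] ℝ, HasFDerivAt
          (fun x => (deriv f x * q * conj (g x) + f x * conj (deriv g x * q)).re) L z ∧
          L q = (deriv (deriv f) z * q * q * conj (g z)
            + 2 * (deriv f z * q * conj (deriv g z * q))
            + f z * conj (deriv (deriv g) z * q * q)).re := by
      intro f g hf hg
      obtain ⟨L₁, h1, h1'⟩ := hasF (fun x => deriv f x * q) g ((hder f hf).mul_const q) hg z
      obtain ⟨L₂, h2, h2'⟩ := hasF f (fun x => deriv g x * q) hf ((hder g hg).mul_const q) z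
      refine ⟨L₁ + L₂, ?_, ?_⟩
      · have := h1.add h2
        refine this.congr_of_eventuallyEq (Filter.Eventually.of_forall fun x => ?_)
        simp [Complex.add_re]
      · rw [_root_.add_apply, h1' q, h2' q]
        have e1 : deriv (fun x => deriv f x * q) z = deriv (deriv f) z * q :=
          deriv_mul_const_field q
        have e2 : deriv (fun x => deriv g x * q) z = deriv (deriv g) z * q :=
          deriv_mul_const_field q
        rw [e1, e2, ← Complex.add_re]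
        congr 1
        ring
    obtain ⟨L₁, h1, h1'⟩ := hone f₁ g₁ hf₁ hg₁
    obtain ⟨L₂, h2, h2'⟩ := hone f₂ g₂ hf₂ hg₂
    obtain ⟨L₃, h3, h3'⟩ := hone f₃ g₃ hf₃ hg₃
    have h4 := (h1.add h2).add h3
    have h5 : HasFDerivAt (fun x => fderiv ℝ v x q) (L₁ + L₂ + L₃) z := by
      refine h4.congr_of_eventuallyEq (Filter.Eventually.of_forall fun x => ?_)
      simp only [hfd x q, Pi.add_apply]
    rw [h5.fderiv, ← h1', ← h2', ← h3']
    rfl
  rw [key 1, key Complex.I]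
  simp only [Complex.add_re, Complex.mul_re, Complex.mul_im, map_mul,
    Complex.conj_re, Complex.conj_im, Complex.I_re, Complex.I_im, Complex.one_re, Complex.one_im,
    Complex.conj_I, Complex.neg_re, Complex.neg_im, map_one, Complex.re_ofNat, Complex.im_ofNat]
  ring

/-- Job DP-6. -/
theorem s_D4 : S_D4 := by
  intro v y₁ y₂ E₁ E₂ hv hpos hy₁ hy₂ hE₁ hE₂ hW hrep hL
  obtain ⟨α, β, γ, δ, h1, h2⟩ := comb E₁ E₂ y₁ y₂ hE₁ hE₂ hy₁ hy₂ hW (by
    intro z
    have e := hrep z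
    have e' := congrArg conj e
    simp only [Complex.conj_ofReal, map_add, map_mul, Complex.conj_conj] at e'
    rw [e] at e'
    linear_combination -e')
  set A : ℝ := α.re with hA
  set Dd : ℝ := δ.re with hDd
  set b : ℂ := (conj β + γ) / 2 with hb
  have hvz : ∀ z, v z = (((A:ℂ) * y₁ z) * conj (y₁ z)).re + (((Dd:ℂ) * y₂ z) * conj (y₂ z)).re
      + ((2 * b * y₁ z) * conj (y₂ z)).re := by
    intro z
    have e : v z = (y₁ z * conj (E₁ z) + y₂ z * conj (E₂ z)).re := by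
      rw [← hrep z]; simp
    rw [e, h1 z, h2 z, hb, hA, hDd]
    simp [Complex.add_re, Complex.mul_re, Complex.mul_im, Complex.add_im]
    ring
  have h2y : Differentiable ℂ (fun z => 2 * b * y₁ z) := hy₁.const_mul _
  obtain ⟨hg, hlap⟩ := three v hv (fun z => (A:ℂ) * y₁ z) y₁ (fun z => (Dd:ℂ) * y₂ z) y₂
    (fun z => 2 * b * y₁ z) y₂ (hy₁.const_mul _) hy₁ (hy₂.const_mul _) hy₂ h2y hy₂ hvz 0
  have d1 : deriv (fun z => (A:ℂ) * y₁ z) 0 = (A:ℂ) * deriv y₁ 0 := deriv_const_mul_field _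
  have d2 : deriv (fun z => (Dd:ℂ) * y₂ z) 0 = (Dd:ℂ) * deriv y₂ 0 := deriv_const_mul_field _
  have d3 : deriv (fun z => 2 * b * y₁ z) 0 = 2 * b * deriv y₁ 0 := deriv_const_mul_field _
  have hdet : A * Dd - Complex.normSq b = 1 / 4 := by
    have e := hL 0
    rw [hlap, hg 1, hg Complex.I, hvz 0, d1, d2, d3] at e
    have w := hW 0
    have wr := congrArg Complex.re w
    have wi := congrArg Complex.im w
    simp only [Complex.sub_re, Complex.sub_im, Complex.mul_re, Complex.mul_im, Complex.one_re,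
      Complex.one_im] at wr wi
    simp only [Complex.add_re, Complex.mul_re, Complex.mul_im, map_mul,
      Complex.conj_re, Complex.conj_im, Complex.I_re, Complex.I_im, Complex.one_re, Complex.one_im,
      map_one, Complex.re_ofNat, Complex.im_ofNat, Complex.ofReal_re, Complex.ofReal_im,
      Complex.add_im, Complex.conj_I, Complex.neg_re, Complex.neg_im] at e
    rw [Complex.normSq_apply]
    generalize (y₁ 0).re = a1 at *
    generalize (y₁ 0).im = a2 at *
    generalize (y₂ 0).re = b1 at *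
    generalize (y₂ 0).im = b2 at *
    generalize (deriv y₁ 0).re = c1 at *
    generalize (deriv y₁ 0).im = c2 at *
    generalize (deriv y₂ 0).re = e1 at *
    generalize (deriv y₂ 0).im = e2 at *
    generalize b.re = f1 at *
    generalize b.im = f2 at *
    have hid : 4 * (A * Dd - (f1 * f1 + f2 * f2)) *
      ((a1 * e1 - a2 * e2 - (c1 * b1 - c2 * b2)) ^ 2 +
        (a1 * e2 + a2 * e1 - (c1 * b2 + c2 * b1)) ^ 2) = 1 := by
      rw [← e]
      ring
    rw [wr, wi] at hid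
    linarith
  have hsq : ∀ z, A * v z = Complex.normSq ((A:ℂ) * y₁ z + conj b * y₂ z) +
      (1 / 4) * Complex.normSq (y₂ z) := by
    intro z
    rw [hvz z, ← hdet]
    simp only [Complex.normSq_apply, Complex.add_re, Complex.add_im, Complex.mul_re,
      Complex.mul_im, Complex.conj_re, Complex.conj_im, Complex.ofReal_re, Complex.ofReal_im,
      Complex.re_ofNat, Complex.im_ofNat]
    ring
  have hApos : 0 < A := by
    have h0 : 0 ≤ A * v 0 := by
      rw [hsq 0]
      have := Complex.normSq_nonneg ((A:ℂ) * y₁ 0 + conj b * y₂ 0)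
      have := Complex.normSq_nonneg (y₂ 0)
      positivity
    have h1 : 0 ≤ A := nonneg_of_mul_nonneg_left h0 (hpos 0)
    have h2 : A ≠ 0 := by
      intro h
      rw [h] at hdet
      have := Complex.normSq_nonneg b
      linarith
    exact lt_of_le_of_ne h1 (Ne.symm h2)
  set s : ℝ := Real.sqrt (2 / A) with hs
  have hspos : 0 < s := Real.sqrt_pos.2 (by positivity)
  have hs2 : s ^ 2 = 2 / A := Real.sq_sqrt (by positivity)
  refine ⟨fun z => (s:ℂ) * ((A:ℂ) * y₁ z + conj b * y₂ z), fun z => ((A * s : ℝ) : ℂ)⁻¹ * y₂ z,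
    ((hy₁.const_mul _).add (hy₂.const_mul _)).const_mul _, hy₂.const_mul _, fun z => ?_,
    fun z => ?_⟩
  · have g1 : deriv (fun z => (s:ℂ) * ((A:ℂ) * y₁ z + conj b * y₂ z)) z =
        (s:ℂ) * ((A:ℂ) * deriv y₁ z + conj b * deriv y₂ z) :=
      ((((hy₁ z).hasDerivAt.const_mul _).add ((hy₂ z).hasDerivAt.const_mul _)).const_mul _).deriv
    have g2 : deriv (fun z => ((A * s : ℝ) : ℂ)⁻¹ * y₂ z) z = ((A * s : ℝ) : ℂ)⁻¹ * deriv y₂ z :=
      ((hy₂ z).hasDerivAt.const_mul _).deriv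
    rw [g1, g2]
    have hA0 : (A:ℂ) ≠ 0 := by exact_mod_cast hApos.ne'
    have hs0 : (s:ℂ) ≠ 0 := by exact_mod_cast hspos.ne'
    rw [Complex.ofReal_mul]
    have := hW z
    field_simp
    linear_combination (A:ℂ) * this
  · have hn1 : ‖(s:ℂ) * ((A:ℂ) * y₁ z + conj b * y₂ z)‖ ^ 2 =
        s ^ 2 * Complex.normSq ((A:ℂ) * y₁ z + conj b * y₂ z) := by
      rw [norm_mul, mul_pow, Complex.norm_real, Real.norm_eq_abs, sq_abs, Complex.sq_norm]
    have hn2 : ‖((A * s : ℝ) : ℂ)⁻¹ * y₂ z‖ ^ 2 = ((A * s) ^ 2)⁻¹ * Complex.normSq (y₂ z) := by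
      rw [norm_mul, mul_pow, norm_inv, Complex.norm_real, Real.norm_eq_abs, inv_pow, sq_abs,
        Complex.sq_norm]
    show ‖(s:ℂ) * ((A:ℂ) * y₁ z + conj b * y₂ z)‖ ^ 2 + ‖((A * s : ℝ) : ℂ)⁻¹ * y₂ z‖ ^ 2 = 2 * v z
    rw [hn1, hn2, mul_pow, hs2]
    have := hsq z
    have e3 : Complex.normSq ((A:ℂ) * y₁ z + conj b * y₂ z) =
      A * v z - (1 / 4) * Complex.normSq (y₂ z) := by linarith
    rw [e3]
    field_simp
    ring

end Pool.Agent.Q199.DP.D4
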